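import Pool.Agent.Helper82.BR.St3

/-!
# MP_514f88_co, project BR8, module PL: transfer to the plane
-/

set_option autoImplicit false

namespace Pool.Agent.Helper73.BR

open Pool.Agent.Helper82.BR
open scoped ComplexConjugate

private theorem rp (z : ℂ) : Complex.orthonormalBasisOneI.repr z = !₂[z.re, z.im] := by
  ext i
  fin_cases i
  · simp [Complex.orthonormalBasisOneI_repr_apply]
  · simp [Complex.orthonormalBasisOneI_repr_apply]

private theorem img (h : ℝ) :
    (fun z : ℂ => Complex.orthonormalBasisOneI.repr z) '' ((KC h : Finset ℂ) : Set ℂ) = kelly h := by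
  unfold KC kelly
  simp only [Finset.coe_insert, Finset.coe_singleton, Set.image_insert_eq, Set.image_singleton, rp]
  simp

private theorem core (S : Set Plane) (T : Finset ℂ) (g : ℂ → ℂ) (r h : ℝ) (hr : 0 < r)
    (hT : ∀ z, z ∈ T ↔ Complex.orthonormalBasisOneI.repr z ∈ S)
    (hg : ∀ x y, dist (g x) (g y) = r * dist x y) (hi : T.image g = KC h) :
    SimilarTo S (kelly h) := by
  classical
  refine ⟨fun x => Complex.orthonormalBasisOneI.repr (g (Complex.orthonormalBasisOneI.repr.symm x)),
    r, hr, fun x y => ?_, ?_⟩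
  · rw [LinearIsometryEquiv.dist_map, hg, LinearIsometryEquiv.dist_map]
  · rw [← img h, ← hi]
    ext p
    constructor
    · rintro ⟨x, hx, rfl⟩
      refine ⟨g (Complex.orthonormalBasisOneI.repr.symm x), ?_, rfl⟩
      rw [Finset.coe_image]
      refine ⟨Complex.orthonormalBasisOneI.repr.symm x, ?_, rfl⟩
      rw [Finset.mem_coe, hT, LinearIsometryEquiv.apply_symm_apply]
      exact hx
    · rintro ⟨w, hw, rfl⟩
      rw [Finset.coe_image] at hw
      obtain ⟨z, hz, rfl⟩ := hw
      refine ⟨Complex.orthonormalBasisOneI.repr z, (hT z).1 hz, ?_⟩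
      show Complex.orthonormalBasisOneI.repr (g (Complex.orthonormalBasisOneI.repr.symm
        (Complex.orthonormalBasisOneI.repr z))) = _
      rw [LinearIsometryEquiv.symm_apply_apply]

/-- **PL.** -/
theorem hPL : StPL := by
  intro S T hT hS
  obtain ⟨a, b, ha, h, hh, hi⟩ := hS
  have key : SimilarTo S (kelly h) := by
    rcases hi with hi | hi
    · refine core S T (fun z => a * z + b) ‖a‖ h (norm_pos_iff.2 ha) hT (fun x y => ?_) hi
      rw [dist_eq_norm, dist_eq_norm, ← norm_mul]
      congr 1
      ring
    · refine core S T (fun z => a * conj z + b) ‖a‖ h (norm_pos_iff.2 ha) hT (fun x y => ?_) hi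
      rw [dist_eq_norm, dist_eq_norm]
      have : a * conj x + b - (a * conj y + b) = a * conj (x - y) := by
        rw [map_sub]
        ring
      rw [this, norm_mul, Complex.norm_conj]
  rcases hh with rfl | rfl
  · exact Or.inl key
  · exact Or.inr key

end Pool.Agent.Helper73.BR
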